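import Pool.Agent.N728.QG.Def

set_option autoImplicit false

/-! # Project QG (helper728), subtask SP (helper855): the off-diagonal terms for a periodic weight -/

namespace Pool.Agent.N855.QG

open Finset Pool.Agent.N728.QL Pool.Agent.N728.QG

noncomputable section

/-! ### The conclusion of WEY, uniformly for finitely many polynomials -/

/-- the conclusion of WEY -/
def WC (Q : Polynomial ℤ) (ε : ℝ) (R : ℕ) (η : ℝ) (L0 : ℕ) : Prop :=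
  ∀ L : ℕ, L0 ≤ L → ∀ (N H : ℕ) (a a' ξ0 ξ1 : ℤ) (Φ : ℤ → ℝ), 1 ≤ H →
  (H : ℝ) ≤ η * (L : ℝ) ^ Q.natDegree → H ≤ N → ξ0 ≤ ξ1 → ξ1 - ξ0 ≤ L → (∀ σ, |Φ σ| ≤ 1) →
  (∀ σ : ℤ, ¬ (a < σ ∧ σ ≤ a + N) → Φ σ = 0) → CellZ Φ R a' H →
  ∑ ξ ∈ Ioc ξ0 ξ1, ∑ ξ' ∈ Ioc ξ0 ξ1, ∑ σ ∈ Ioc a (a + N), Φ σ * Φ (σ + Q.eval ξ' - Q.eval ξ) ≤
    ε * ((N : ℝ) * (L : ℝ) ^ 2)

theorem WC_mono {Q : Polynomial ℤ} {ε : ℝ} {R R' : ℕ} {η η' : ℝ} {L0 L0' : ℕ} (h : WC Q ε R η L0) (hR : R ≤ R')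
    (hη : η' ≤ η) (hL : L0 ≤ L0') : WC Q ε R' η' L0' := by
  intro L hL' N H a a' ξ0 ξ1 Φ h1 h2 h3 h4 h5 h6 h7 h8
  refine h L (hL.trans hL') N H a a' ξ0 ξ1 Φ h1 (h2.trans ?_) h3 h4 h5 h6 h7 ?_
  · exact mul_le_mul_of_nonneg_right hη (by positivity)
  · intro r hr ρ0 k
    rw [Finset.mem_Icc] at hr
    exact h8 r (Finset.mem_Icc.2 ⟨hr.1, hr.2.trans hR⟩) ρ0 k

theorem WC_unif (h : S_WEY) (ε : ℝ) (hε : 0 < ε) (S : Finset ℤ) (Q : ℤ → Polynomial ℤ)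
    (hQ : ∀ i, 1 ≤ (Q i).natDegree) :
    ∃ R : ℕ, 1 ≤ R ∧ ∃ η : ℝ, 0 < η ∧ ∃ L0 : ℕ, ∀ i ∈ S, WC (Q i) ε R η L0 := by
  classical
  induction S using Finset.induction_on with
  | empty => exact ⟨1, le_rfl, 1, one_pos, 0, by simp⟩
  | insert i S hi ih =>
    obtain ⟨R, hR, η, hη, L0, hS⟩ := ih
    obtain ⟨R', hR', η', hη', L0', hS'⟩ := h (Q i) (hQ i) ε hε
    refine ⟨max R R', le_max_of_le_left hR, min η η', lt_min hη hη', max L0 L0', ?_⟩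
    intro j hj
    rcases Finset.mem_insert.1 hj with rfl | hj
    · exact WC_mono hS' (le_max_right _ _) (min_le_right _ _) (le_max_right _ _)
    · exact WC_mono (hS j hj) (le_max_left _ _) (min_le_left _ _) (le_max_left _ _)

/-! ### Cauchy-Schwarz for one class -/

theorem class_bound {Q : Polynomial ℤ} {ε : ℝ} {R : ℕ} {η : ℝ} {L0 : ℕ} (hW : WC Q ε R η L0)
    (L N N1 H : ℕ) (a a' a1 ξ0 ξ1 : ℤ) (Φ1 Φ : ℤ → ℝ) (hL : L0 ≤ L) (hH : 1 ≤ H)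
    (hHL : (H : ℝ) ≤ η * (L : ℝ) ^ Q.natDegree) (hHN : H ≤ N) (h01 : ξ0 ≤ ξ1) (h01L : ξ1 - ξ0 ≤ L)
    (hΦ1 : ∀ σ, |Φ1 σ| ≤ 1) (hΦ : ∀ σ, |Φ σ| ≤ 1) (hs : ∀ σ : ℤ, ¬ (a < σ ∧ σ ≤ a + N) → Φ σ = 0)
    (hC : CellZ Φ R a' H) :
    (∑ ξ ∈ Ioc ξ0 ξ1, ∑ σ ∈ Ioc a1 (a1 + (N1 : ℤ)), Φ1 σ * Φ (σ + Q.eval ξ)) ^ 2 ≤
      (N1 : ℝ) * (ε * ((N : ℝ) * (L : ℝ) ^ 2)) := by
  classical
  rw [Finset.sum_comm]
  simp_rw [← Finset.mul_sum]
  have h1 := Finset.sum_mul_sq_le_sq_mul_sq (Ioc a1 (a1 + (N1 : ℤ))) Φ1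
    (fun σ => ∑ ξ ∈ Ioc ξ0 ξ1, Φ (σ + Q.eval ξ))
  refine h1.trans ?_
  have h2 : ∑ σ ∈ Ioc a1 (a1 + (N1 : ℤ)), Φ1 σ ^ 2 ≤ N1 := by
    calc _ ≤ ∑ σ ∈ Ioc a1 (a1 + (N1 : ℤ)), (1 : ℝ) := Finset.sum_le_sum (fun σ _ => by
            have := hΦ1 σ
            rw [abs_le] at this
            nlinarith)
      _ = N1 := by simp
  have h3 : ∑ σ ∈ Ioc a1 (a1 + (N1 : ℤ)), (∑ ξ ∈ Ioc ξ0 ξ1, Φ (σ + Q.eval ξ)) ^ 2 ≤
      ε * ((N : ℝ) * (L : ℝ) ^ 2) := by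
    set J := Ioc a1 (a1 + (N1 : ℤ)) ∪ (Ioc ξ0 ξ1).biUnion
      (fun ξ => (Ioc a (a + (N : ℤ))).image (fun σ => σ - Q.eval ξ)) with hJ
    calc _ ≤ ∑ σ ∈ J, (∑ ξ ∈ Ioc ξ0 ξ1, Φ (σ + Q.eval ξ)) ^ 2 :=
            Finset.sum_le_sum_of_subset_of_nonneg Finset.subset_union_left (fun _ _ _ => sq_nonneg _)
      _ = ∑ σ ∈ J, ∑ ξ ∈ Ioc ξ0 ξ1, ∑ ξ' ∈ Ioc ξ0 ξ1, Φ (σ + Q.eval ξ) * Φ (σ + Q.eval ξ') := by
            refine Finset.sum_congr rfl fun σ _ => ?_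
            rw [sq, Finset.sum_mul_sum]
      _ = ∑ ξ ∈ Ioc ξ0 ξ1, ∑ ξ' ∈ Ioc ξ0 ξ1, ∑ σ ∈ J, Φ (σ + Q.eval ξ) * Φ (σ + Q.eval ξ') := by
            rw [Finset.sum_comm]
            refine Finset.sum_congr rfl fun ξ _ => ?_
            rw [Finset.sum_comm]
      _ = ∑ ξ ∈ Ioc ξ0 ξ1, ∑ ξ' ∈ Ioc ξ0 ξ1, ∑ σ ∈ Ioc a (a + (N : ℤ)),
            Φ σ * Φ (σ + Q.eval ξ' - Q.eval ξ) := by
            refine Finset.sum_congr rfl fun ξ hξ => Finset.sum_congr rfl fun ξ' _ => ?_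
            have hsub : (Ioc a (a + (N : ℤ))).image (fun σ => σ - Q.eval ξ) ⊆ J := by
              intro σ hσ
              rw [hJ, Finset.mem_union]
              right
              rw [Finset.mem_biUnion]
              exact ⟨ξ, hξ, hσ⟩
            rw [← Finset.sum_subset hsub]
            · rw [Finset.sum_image]
              · refine sum_congr rfl fun σ _ => ?_
                have e1 : σ - Q.eval ξ + Q.eval ξ = σ := by ring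
                have e2 : σ - Q.eval ξ + Q.eval ξ' = σ + Q.eval ξ' - Q.eval ξ := by ring
                rw [e1, e2]
              · intro x _ y _ hxy
                simpa using hxy
            · intro σ _ hσ
              have : Φ (σ + Q.eval ξ) = 0 := by
                apply hs
                intro hh
                apply hσ
                rw [Finset.mem_image]
                exact ⟨σ + Q.eval ξ, Finset.mem_Ioc.2 hh, by ring⟩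
              rw [this, zero_mul]
      _ ≤ _ := hW L hL N H a a' ξ0 ξ1 Φ hH hHL hHN h01 h01L hΦ hs hC
  exact mul_le_mul h2 h3 (Finset.sum_nonneg fun _ _ => sq_nonneg _) (Nat.cast_nonneg _)

/-! ### Sums over classes -/

theorem sum_classes (f : ℤ → ℝ) (D : ℤ) (hD : 0 < D) (a b : ℤ) :
    ∑ x ∈ Ioc a b, f x = ∑ x0 ∈ Ico 0 D, ∑ ξ ∈ Ioc ((a - x0) / D) ((b - x0) / D), f (x0 + D * ξ) := by
  rw [← Finset.sum_fiberwise_of_maps_to (g := fun x : ℤ => x % D) (t := Ico (0 : ℤ) D)]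
  · refine Finset.sum_congr rfl fun x0 hx0 => ?_
    rw [Finset.mem_Ico] at hx0
    symm
    refine Finset.sum_nbij (fun ξ => x0 + D * ξ) ?_ ?_ ?_ ?_
    · intro ξ hξ
      rw [Finset.mem_Ioc, Int.ediv_lt_iff_lt_mul hD, Int.le_ediv_iff_mul_le hD] at hξ
      rw [Finset.mem_filter, Finset.mem_Ioc]
      refine ⟨⟨by linarith [hξ.1], by linarith [hξ.2]⟩, ?_⟩
      rw [Int.add_mul_emod_self_left, Int.emod_eq_of_lt hx0.1 hx0.2]
    · intro ξ _ ξ' _ h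
      simp only at h
      have : D * ξ = D * ξ' := by linarith
      exact mul_left_cancel₀ hD.ne' this
    · intro x hx
      rw [Finset.coe_filter, Set.mem_ofPred_eq, Finset.mem_Ioc] at hx
      obtain ⟨⟨h1, h2⟩, h3⟩ := hx
      have h4 : x = x0 + D * (x / D) := by
        rw [← h3]
        exact (Int.emod_add_mul_ediv x D).symm
      refine ⟨x / D, ?_, h4.symm⟩
      rw [Finset.mem_coe, Finset.mem_Ioc, Int.ediv_lt_iff_lt_mul hD, Int.le_ediv_iff_mul_le hD]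
      constructor <;> linarith
    · intro ξ _
      rfl
  · intro x _
    rw [Finset.mem_Ico]
    exact ⟨Int.emod_nonneg _ hD.ne', Int.emod_lt_of_pos _ hD⟩

theorem shift_sum (Φ1 Φ2 : ℤ → ℝ) (τ0 τ1 a1 b1 p p' : ℤ) (h1 : ∀ σ, ¬ (a1 < σ ∧ σ ≤ b1) → Φ1 σ = 0)
    (h2 : ∀ τ, Φ1 (τ - p) ≠ 0 → τ0 < τ ∧ τ ≤ τ1) :
    ∑ τ ∈ Ioc τ0 τ1, Φ1 (τ - p) * Φ2 (τ - p') = ∑ σ ∈ Ioc a1 b1, Φ1 σ * Φ2 (σ + (p - p')) := by
  classical
  rw [← Finset.sum_filter_ne_zero, ← Finset.sum_filter_ne_zero (s := Ioc a1 b1)]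
  refine Finset.sum_nbij (fun τ => τ - p) ?_ ?_ ?_ ?_
  · intro τ hτ
    rw [Finset.mem_filter, Finset.mem_Ioc] at hτ ⊢
    have e : τ - p + (p - p') = τ - p' := by ring
    rw [e]
    refine ⟨?_, hτ.2⟩
    by_contra hcon
    exact hτ.2 (by rw [h1 _ hcon, zero_mul])
  · intro τ _ τ' _ h
    simpa using h
  · intro σ hσ
    rw [Finset.mem_coe, Finset.mem_filter, Finset.mem_Ioc] at hσ
    refine ⟨σ + p, ?_, by ring⟩
    rw [Finset.mem_coe, Finset.mem_filter, Finset.mem_Ioc]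
    have e1 : σ + p - p = σ := by ring
    have e2 : σ + p - p' = σ + (p - p') := by ring
    rw [e1, e2]
    refine ⟨?_, hσ.2⟩
    apply h2
    rw [e1]
    exact left_ne_zero_of_mul hσ.2
  · intro τ _
    have e : τ - p + (p - p') = τ - p' := by ring
    simp only [e]

/-! ### The polynomials -/

theorem exists_poly (G : Polynomial ℤ) (hG : 1 ≤ G.natDegree) (a b d : ℤ) (hb : b ≠ 0) (hd : d ≠ 0) (hdb : d ∣ b) :
    ∃ P1 : Polynomial ℤ, (∀ ξ : ℤ, G.eval (a + b * ξ) = G.eval a + d * P1.eval ξ) ∧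
      P1.natDegree ≤ G.natDegree ∧ d * P1.coeff G.natDegree = G.leadingCoeff * b ^ G.natDegree := by
  obtain ⟨b', hb'⟩ := hdb
  set L : Polynomial ℤ := Polynomial.C b * Polynomial.X + Polynomial.C a with hL
  have h0 : (L - Polynomial.C a) ∣ (G.comp L - Polynomial.C (G.eval a)) := by
    have := Polynomial.sub_dvd_eval_sub L (Polynomial.C a) (G.map Polynomial.C)
    rw [Polynomial.eval_map, Polynomial.eval_map, Polynomial.eval₂_at_apply] at this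
    exact this
  obtain ⟨r, hr⟩ := h0
  have hr' : G.comp L - Polynomial.C (G.eval a) = Polynomial.C d * (Polynomial.C b' * Polynomial.X * r) := by
    rw [hr, hL, hb']
    rw [Polynomial.C_mul]
    ring
  have hev : ∀ ξ : ℤ, (G.comp L).eval ξ = G.eval (a + b * ξ) := by
    intro ξ
    rw [Polynomial.eval_comp, hL]
    simp only [Polynomial.eval_add, Polynomial.eval_mul, Polynomial.eval_C, Polynomial.eval_X]
    rw [add_comm]
  have hLd : L.natDegree = 1 := Polynomial.natDegree_linear hb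
  have hLl : L.leadingCoeff = b := Polynomial.leadingCoeff_linear hb
  have hcd : (G.comp L).natDegree = G.natDegree := by
    rw [Polynomial.natDegree_comp, hLd, mul_one]
  refine ⟨Polynomial.C b' * Polynomial.X * r, ?_, ?_, ?_⟩
  · intro ξ
    have := congrArg (Polynomial.eval ξ) hr'
    rw [Polynomial.eval_sub, hev, Polynomial.eval_C, Polynomial.eval_mul, Polynomial.eval_C] at this
    linarith
  · rw [← Polynomial.natDegree_C_mul hd, ← hr', Polynomial.natDegree_sub_C, hcd]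
  · rw [← Polynomial.coeff_C_mul, ← hr', Polynomial.coeff_sub, Polynomial.coeff_C_of_ne_zero (by omega), sub_zero]
    have : (G.comp L).coeff G.natDegree = (G.comp L).leadingCoeff := by
      rw [Polynomial.leadingCoeff, hcd]
    rw [this, Polynomial.leadingCoeff_comp (by omega), hLl]

/-! ### The cells -/

/-- zero mean for a coarser modulus -/
theorem zeroMean_of_dvd {F : ℤ → ℝ} {q H : ℕ} (hq : 1 ≤ q) (h : ZeroMean F q H) {D : ℤ} (hD : D ∣ (q : ℤ)) (s k : ℤ) :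
    ∑ b ∈ (Ico (k * (H : ℤ)) ((k + 1) * H)).filter (fun b => b ≡ s [ZMOD D]), F b = 0 := by
  have hq' : (0 : ℤ) < q := by exact_mod_cast hq
  rw [Finset.sum_filter]
  have key : ∀ b : ℤ, (if b ≡ s [ZMOD D] then F b else 0) =
      ∑ r ∈ (Ico (0 : ℤ) q).filter (fun r => r ≡ s [ZMOD D]), (if b ≡ r [ZMOD q] then F b else 0) := by
    intro b
    by_cases hb : b ≡ s [ZMOD D]
    · rw [if_pos hb, Finset.sum_eq_single (b % q)]
      · rw [if_pos]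
        exact (Int.mod_modEq b q).symm
      · intro r hr hne
        rw [Finset.mem_filter, Finset.mem_Ico] at hr
        rw [if_neg]
        intro hbr
        apply hne
        have := hbr
        unfold Int.ModEq at this
        rw [this, Int.emod_eq_of_lt hr.1.1 hr.1.2]
      · intro hnot
        exfalso
        apply hnot
        rw [Finset.mem_filter, Finset.mem_Ico]
        refine ⟨⟨Int.emod_nonneg _ hq'.ne', Int.emod_lt_of_pos _ hq'⟩, ?_⟩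
        exact ((Int.mod_modEq b q).of_dvd hD).trans hb
    · rw [if_neg hb]
      symm
      apply Finset.sum_eq_zero
      intro r hr
      rw [Finset.mem_filter] at hr
      rw [if_neg]
      intro hbr
      exact hb ((hbr.of_dvd hD).trans hr.2)
  simp_rw [key]
  rw [Finset.sum_comm]
  apply Finset.sum_eq_zero
  intro r _
  rw [← Finset.sum_filter]
  exact h r k

theorem cellZ {F : ℤ → ℝ} {q H : ℕ} (hq : 1 ≤ q) (h : ZeroMean F q H) (D H' : ℕ) (hD : 0 < D) (hH : H = D * H')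
    (R : ℕ) (hR : D * R.factorial ∣ q) (s : ℤ) :
    CellZ (fun σ => F (s + D * σ)) R (-(s / D)) H' := by
  intro r hr ρ0 k
  rw [Finset.mem_Icc] at hr
  have hDZ : (0 : ℤ) < D := by exact_mod_cast hD
  have hrq : ((D * r : ℕ) : ℤ) ∣ (q : ℤ) := by
    have h1 : D * r ∣ q := (Nat.mul_dvd_mul_left D (Nat.dvd_factorial (by omega) hr.2)).trans hR
    exact_mod_cast h1
  have hz := zeroMean_of_dvd hq h hrq (s + D * ρ0) k
  rw [← hz]
  have hs1 : s = D * (s / D) + s % D := (Int.mul_ediv_add_emod s D).symm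
  have hs2 : 0 ≤ s % D := Int.emod_nonneg _ hDZ.ne'
  have hs3 : s % D < D := Int.emod_lt_of_pos _ hDZ
  have hHZ : (H : ℤ) = D * H' := by exact_mod_cast hH
  set u := s / (D : ℤ) with hu
  set v := s % (D : ℤ) with hv
  refine Finset.sum_nbij (fun σ => s + D * σ) ?_ ?_ ?_ ?_
  · intro σ hσ
    rw [Finset.mem_filter, Finset.mem_Ico] at hσ ⊢
    obtain ⟨⟨h1, h2⟩, h3⟩ := hσ
    refine ⟨⟨?_, ?_⟩, ?_⟩
    · rw [hHZ, hs1]
      have : (D : ℤ) * (k * H') ≤ D * (u + σ) := mul_le_mul_of_nonneg_left (by linarith) hDZ.le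
      nlinarith
    · rw [hHZ, hs1]
      have : (D : ℤ) * (u + σ + 1) ≤ D * ((k + 1) * H') := mul_le_mul_of_nonneg_left (by linarith) hDZ.le
      nlinarith
    · obtain ⟨n, hn⟩ := Int.modEq_iff_dvd.1 h3
      refine Int.modEq_iff_dvd.2 ⟨n, ?_⟩
      push_cast
      linear_combination (D : ℤ) * hn
  · intro σ _ σ' _ hh
    simp only at hh
    have : (D : ℤ) * σ = D * σ' := by linarith
    exact mul_left_cancel₀ hDZ.ne' this
  · intro b hb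
    rw [Finset.mem_coe, Finset.mem_filter, Finset.mem_Ico] at hb
    obtain ⟨⟨h1, h2⟩, h3⟩ := hb
    obtain ⟨n, hn⟩ := Int.modEq_iff_dvd.1 h3
    push_cast at hn
    have hbe : s + D * (ρ0 - r * n) = b := by linear_combination hn
    refine ⟨ρ0 - r * n, ?_, hbe⟩
    set σ := ρ0 - r * n with hσ
    rw [Finset.mem_coe, Finset.mem_filter, Finset.mem_Ico]
    rw [hHZ] at h1 h2
    refine ⟨⟨?_, ?_⟩, ?_⟩
    · have h4 : (D : ℤ) * (k * H') < D * (u + σ + 1) := by nlinarith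
      have h5 := lt_of_mul_lt_mul_left h4 hDZ.le
      linarith
    · have h4 : (D : ℤ) * (u + σ) < D * ((k + 1) * H') := by nlinarith
      have h5 := lt_of_mul_lt_mul_left h4 hDZ.le
      linarith
    · exact Int.modEq_iff_dvd.2 ⟨n, by rw [hσ]; ring⟩
  · intro σ _
    rfl

theorem supp_prog {F : ℤ → ℝ} {B : ℕ} (hF : Adm5 F B) (s : ℤ) (D : ℕ) (hD : 0 < D) (σ : ℤ)
    (h : ¬ (((B : ℤ) - s) / D < σ ∧ σ ≤ ((B : ℤ) - s) / D + ((4 * B / D + 1 : ℕ) : ℤ))) : F (s + D * σ) = 0 := by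
  have hDZ : (0 : ℤ) < D := by exact_mod_cast hD
  apply hF.2
  intro h1
  apply h
  constructor
  · rw [Int.ediv_lt_iff_lt_mul hDZ]
    linarith [h1.1]
  · push_cast
    have h2 : (B : ℤ) - s < (((B : ℤ) - s) / D + 1) * D := Int.lt_ediv_add_one_mul_self _ hDZ
    set a := ((B : ℤ) - s) / D with ha
    have h3 : (σ - a - 1) ≤ 4 * (B : ℤ) / D := by
      rw [Int.le_ediv_iff_mul_le hDZ]
      nlinarith [h1.2]
    linarith

/-! ### The weight -/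

theorem rg_congr {w y P : ℕ} (hP : PP w y ∣ P) {n n' : ℤ} (h : n ≡ n' [ZMOD (P : ℤ)]) : rg w y n = rg w y n' := by
  have key : Rg w y n ↔ Rg w y n' := by
    unfold Rg
    have key : ∀ p : ℕ, p.Prime → w < p → p ≤ y → ((p : ℤ) ∣ n ↔ (p : ℤ) ∣ n') := by
      intro p hp hw hy
      have h0 : p ∣ P := (prime_dvd_PP hp hw hy).trans hP
      have h1 : n ≡ n' [ZMOD (p : ℤ)] := h.of_dvd (by exact_mod_cast h0)
      exact Int.ModEq.dvd_iff h1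
    constructor
    · intro h2 p hp hw hy hd
      exact h2 p hp hw hy ((key p hp hw hy).2 hd)
    · intro h2 p hp hw hy hd
      exact h2 p hp hw hy ((key p hp hw hy).1 hd)
  unfold rg
  by_cases hR : Rg w y n'
  · rw [if_pos hR, if_pos (key.2 hR)]
  · rw [if_neg hR, if_neg (fun h => hR (key.1 h))]

theorem per_congr {ψ : ℤ → ℝ} {P : ℕ} (h : ∀ n, ψ (n + P) = ψ n) {n n' : ℤ} (hn : n ≡ n' [ZMOD (P : ℤ)]) :
    ψ n = ψ n' := by
  obtain ⟨k, hk⟩ := Int.modEq_iff_dvd.1 hn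
  have h1 : Function.Periodic ψ (P : ℤ) := h
  have h2 := h1.int_mul k n
  have h3 : n' = n + k * P := by linarith
  rw [h3]
  simpa using h2.symm

/-- the weight -/
def Wt (w y M : ℕ) (ψ : ℤ → ℝ) (x t : ℤ) : ℝ := rg w y x * rg w y t * ψ ((M : ℤ) * x * t)

theorem Wt_abs (w y M : ℕ) {ψ : ℤ → ℝ} (hψ : ∀ n, |ψ n| ≤ 1) (x t : ℤ) : |Wt w y M ψ x t| ≤ 1 := by
  unfold Wt
  rw [abs_mul, abs_mul, abs_of_nonneg (rg_nonneg _ _ _), abs_of_nonneg (rg_nonneg _ _ _)]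
  calc rg w y x * rg w y t * |ψ ((M : ℤ) * x * t)| ≤ 1 * 1 * 1 := by
        have h1 := rg_nonneg w y x
        have h2 := rg_nonneg w y t
        have h3 := rg_le_one w y x
        have h4 := rg_le_one w y t
        have h5 := hψ ((M : ℤ) * x * t)
        gcongr
    _ = 1 := by ring

theorem Wt_congr {w y M P : ℕ} (hP : PP w y ∣ P) {ψ : ℤ → ℝ} (h : ∀ n, ψ (n + P) = ψ n) (x0 t0 ξ τ : ℤ) :
    Wt w y M ψ (x0 + (P : ℤ) ^ 3 * ξ) (t0 + (P : ℤ) ^ 2 * τ) = Wt w y M ψ x0 t0 := by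
  have hx : x0 + (P : ℤ) ^ 3 * ξ ≡ x0 [ZMOD (P : ℤ)] := Int.modEq_iff_dvd.2 ⟨-((P : ℤ) ^ 2 * ξ), by ring⟩
  have ht : t0 + (P : ℤ) ^ 2 * τ ≡ t0 [ZMOD (P : ℤ)] := Int.modEq_iff_dvd.2 ⟨-((P : ℤ) * τ), by ring⟩
  unfold Wt
  rw [rg_congr hP hx, rg_congr hP ht, per_congr h (((Int.ModEq.refl (M : ℤ)).mul hx).mul ht)]

/-! ### One class -/

/-- the data of the problem -/
structure Dt (G : Polynomial ℤ) (P A A' m m' B X Y : ℕ) (F : ℤ → ℝ) : Prop where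
  hP : 0 < P
  hA : 0 < A
  hA' : 0 < A'
  adm : Adm5 F B
  rge : ∀ x : ℤ, 0 < x → x ≤ X → 0 ≤ (B : ℤ) + G.eval ((m : ℤ) * x) ∧ 5 * (B : ℤ) + G.eval ((m : ℤ) * x) ≤ (A : ℤ) * Y

/-- the sum over `τ` -/
theorem tau_sum {G : Polynomial ℤ} {P A A' m m' B X Y : ℕ} {F : ℤ → ℝ} (h : Dt G P A A' m m' B X Y F)
    (P1 P2 : Polynomial ℤ) (x0 t0 ξ : ℤ)
    (hP1 : ∀ ξ : ℤ, G.eval ((m : ℤ) * x0 + (m * P ^ 3 : ℕ) * ξ) = G.eval ((m : ℤ) * x0) + (A * P ^ 2 : ℕ) * P1.eval ξ)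
    (hP2 : ∀ ξ : ℤ, G.eval ((m' : ℤ) * x0 + (m' * P ^ 3 : ℕ) * ξ) =
      G.eval ((m' : ℤ) * x0) + (A' * P ^ 2 : ℕ) * P2.eval ξ)
    (hx1 : 0 < x0 + (P : ℤ) ^ 3 * ξ) (hx2 : x0 + (P : ℤ) ^ 3 * ξ ≤ X) :
    ∑ τ ∈ Ioc ((0 - t0) / (P : ℤ) ^ 2) (((Y : ℤ) - t0) / (P : ℤ) ^ 2),
      F ((A : ℤ) * (t0 + (P : ℤ) ^ 2 * τ) - G.eval ((m : ℤ) * (x0 + (P : ℤ) ^ 3 * ξ))) *
      F ((A' : ℤ) * (t0 + (P : ℤ) ^ 2 * τ) - G.eval ((m' : ℤ) * (x0 + (P : ℤ) ^ 3 * ξ))) =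
    ∑ σ ∈ Ioc (((B : ℤ) - ((A : ℤ) * t0 - G.eval ((m : ℤ) * x0))) / ((A * P ^ 2 : ℕ) : ℤ))
        (((B : ℤ) - ((A : ℤ) * t0 - G.eval ((m : ℤ) * x0))) / ((A * P ^ 2 : ℕ) : ℤ) +
          ((4 * B / (A * P ^ 2) + 1 : ℕ) : ℤ)),
      F (((A : ℤ) * t0 - G.eval ((m : ℤ) * x0)) + (A * P ^ 2 : ℕ) * σ) *
      F (((A' : ℤ) * t0 - G.eval ((m' : ℤ) * x0)) + (A' * P ^ 2 : ℕ) * (σ + (P1 - P2).eval ξ)) := by
  have hP0 : (0 : ℤ) < (P : ℤ) ^ 2 := by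
    have := h.hP
    positivity
  have hA0 : (0 : ℤ) < A := by exact_mod_cast h.hA
  have hD : 0 < A * P ^ 2 := by
    have := h.hP
    have := h.hA
    positivity
  have e1 : ∀ τ : ℤ, (A : ℤ) * (t0 + (P : ℤ) ^ 2 * τ) - G.eval ((m : ℤ) * (x0 + (P : ℤ) ^ 3 * ξ)) =
      ((A : ℤ) * t0 - G.eval ((m : ℤ) * x0)) + (A * P ^ 2 : ℕ) * (τ - P1.eval ξ) := by
    intro τ
    have h1 := hP1 ξ
    have h2 : (m : ℤ) * x0 + (m * P ^ 3 : ℕ) * ξ = (m : ℤ) * (x0 + (P : ℤ) ^ 3 * ξ) := by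
      push_cast
      ring
    rw [h2] at h1
    rw [h1]
    push_cast
    ring
  have e2 : ∀ τ : ℤ, (A' : ℤ) * (t0 + (P : ℤ) ^ 2 * τ) - G.eval ((m' : ℤ) * (x0 + (P : ℤ) ^ 3 * ξ)) =
      ((A' : ℤ) * t0 - G.eval ((m' : ℤ) * x0)) + (A' * P ^ 2 : ℕ) * (τ - P2.eval ξ) := by
    intro τ
    have h1 := hP2 ξ
    have h2 : (m' : ℤ) * x0 + (m' * P ^ 3 : ℕ) * ξ = (m' : ℤ) * (x0 + (P : ℤ) ^ 3 * ξ) := by
      push_cast
      ring
    rw [h2] at h1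
    rw [h1]
    push_cast
    ring
  have key := shift_sum (fun σ => F (((A : ℤ) * t0 - G.eval ((m : ℤ) * x0)) + (A * P ^ 2 : ℕ) * σ))
    (fun σ => F (((A' : ℤ) * t0 - G.eval ((m' : ℤ) * x0)) + (A' * P ^ 2 : ℕ) * σ))
    ((0 - t0) / (P : ℤ) ^ 2) (((Y : ℤ) - t0) / (P : ℤ) ^ 2)
    (((B : ℤ) - ((A : ℤ) * t0 - G.eval ((m : ℤ) * x0))) / ((A * P ^ 2 : ℕ) : ℤ))
    (((B : ℤ) - ((A : ℤ) * t0 - G.eval ((m : ℤ) * x0))) / ((A * P ^ 2 : ℕ) : ℤ) +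
          ((4 * B / (A * P ^ 2) + 1 : ℕ) : ℤ)) (P1.eval ξ) (P2.eval ξ) ?_ ?_
  · rw [Polynomial.eval_sub]
    rw [← key]
    refine Finset.sum_congr rfl fun τ _ => ?_
    rw [e1, e2]
  · intro σ hσ
    exact supp_prog h.adm _ _ hD σ hσ
  · intro τ hτ
    rw [← e1] at hτ
    have h1 : (B : ℤ) < (A : ℤ) * (t0 + (P : ℤ) ^ 2 * τ) - G.eval ((m : ℤ) * (x0 + (P : ℤ) ^ 3 * ξ)) ∧
        (A : ℤ) * (t0 + (P : ℤ) ^ 2 * τ) - G.eval ((m : ℤ) * (x0 + (P : ℤ) ^ 3 * ξ)) ≤ 5 * B := by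
      by_contra hcon
      exact hτ (h.adm.2 _ hcon)
    obtain ⟨h2, h3⟩ := h.rge _ hx1 hx2
    set g := G.eval ((m : ℤ) * (x0 + (P : ℤ) ^ 3 * ξ))
    constructor
    · rw [Int.ediv_lt_iff_lt_mul hP0]
      have h4 : (A : ℤ) * 0 < A * (t0 + (P : ℤ) ^ 2 * τ) := by linarith [h1.1]
      have h5 := lt_of_mul_lt_mul_left h4 hA0.le
      linarith
    · rw [Int.le_ediv_iff_mul_le hP0]
      have h4 : (A : ℤ) * (t0 + (P : ℤ) ^ 2 * τ) ≤ A * Y := by linarith [h1.2]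
      have h5 := le_of_mul_le_mul_left h4 hA0
      linarith

/-- the double sum as a sum over the classes -/
theorem class_sum {G : Polynomial ℤ} {w y M P A A' m m' B X Y : ℕ} {F ψ : ℤ → ℝ} (h : Dt G P A A' m m' B X Y F)
    (hPP : PP w y ∣ P) (hψ : ∀ n, ψ (n + P) = ψ n) (P1 P2 : ℤ → Polynomial ℤ)
    (hP1 : ∀ x0 ξ : ℤ, G.eval ((m : ℤ) * x0 + (m * P ^ 3 : ℕ) * ξ) =
      G.eval ((m : ℤ) * x0) + (A * P ^ 2 : ℕ) * (P1 x0).eval ξ)
    (hP2 : ∀ x0 ξ : ℤ, G.eval ((m' : ℤ) * x0 + (m' * P ^ 3 : ℕ) * ξ) =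
      G.eval ((m' : ℤ) * x0) + (A' * P ^ 2 : ℕ) * (P2 x0).eval ξ) :
    ∑ x ∈ Icc 1 X, ∑ t ∈ Icc 1 Y, rg w y x * rg w y t * ψ ((M : ℤ) * x * t) *
      F ((A : ℤ) * t - G.eval ((m : ℤ) * x)) * F ((A' : ℤ) * t - G.eval ((m' : ℤ) * x)) =
    ∑ x0 ∈ Ico (0 : ℤ) ((P : ℤ) ^ 3), ∑ t0 ∈ Ico (0 : ℤ) ((P : ℤ) ^ 2), Wt w y M ψ x0 t0 *
      ∑ ξ ∈ Ioc ((0 - x0) / (P : ℤ) ^ 3) (((X : ℤ) - x0) / (P : ℤ) ^ 3),
        ∑ σ ∈ Ioc (((B : ℤ) - ((A : ℤ) * t0 - G.eval ((m : ℤ) * x0))) / ((A * P ^ 2 : ℕ) : ℤ))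
            (((B : ℤ) - ((A : ℤ) * t0 - G.eval ((m : ℤ) * x0))) / ((A * P ^ 2 : ℕ) : ℤ) +
              ((4 * B / (A * P ^ 2) + 1 : ℕ) : ℤ)),
          F (((A : ℤ) * t0 - G.eval ((m : ℤ) * x0)) + (A * P ^ 2 : ℕ) * σ) *
          F (((A' : ℤ) * t0 - G.eval ((m' : ℤ) * x0)) + (A' * P ^ 2 : ℕ) * (σ + (P1 x0 - P2 x0).eval ξ)) := by
  have hP3 : (0 : ℤ) < (P : ℤ) ^ 3 := by
    have := h.hP
    positivity
  have hP2' : (0 : ℤ) < (P : ℤ) ^ 2 := by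
    have := h.hP
    positivity
  set g : ℤ → ℤ → ℝ := fun x t => F ((A : ℤ) * t - G.eval ((m : ℤ) * x)) * F ((A' : ℤ) * t - G.eval ((m' : ℤ) * x))
    with hg
  have e1 : ∑ x ∈ Icc 1 X, ∑ t ∈ Icc 1 Y, rg w y x * rg w y t * ψ ((M : ℤ) * x * t) *
      F ((A : ℤ) * t - G.eval ((m : ℤ) * x)) * F ((A' : ℤ) * t - G.eval ((m' : ℤ) * x)) =
      ∑ x ∈ Ioc (0 : ℤ) X, ∑ t ∈ Ioc (0 : ℤ) Y, Wt w y M ψ x t * g x t := by
    have hI : ∀ Z : ℕ, Ioc (0 : ℤ) Z = Icc (1 : ℤ) Z := by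
      intro Z
      ext n
      rw [Finset.mem_Ioc, Finset.mem_Icc]
      omega
    rw [hI, hI, sum_Icc_int X (fun x => ∑ t ∈ Icc (1 : ℤ) Y, Wt w y M ψ x t * g x t)]
    refine Finset.sum_congr rfl fun x _ => ?_
    rw [sum_Icc_int Y (fun t => Wt w y M ψ x t * g x t)]
    refine Finset.sum_congr rfl fun t _ => ?_
    rw [hg]
    unfold Wt
    ring
  rw [e1, sum_classes _ _ hP3]
  refine Finset.sum_congr rfl fun x0 _ => ?_
  have e2 : ∀ ξ ∈ Ioc ((0 - x0) / (P : ℤ) ^ 3) (((X : ℤ) - x0) / (P : ℤ) ^ 3),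
      ∑ t ∈ Ioc (0 : ℤ) Y, Wt w y M ψ (x0 + (P : ℤ) ^ 3 * ξ) t * g (x0 + (P : ℤ) ^ 3 * ξ) t =
      ∑ t0 ∈ Ico (0 : ℤ) ((P : ℤ) ^ 2), Wt w y M ψ x0 t0 *
        ∑ σ ∈ Ioc (((B : ℤ) - ((A : ℤ) * t0 - G.eval ((m : ℤ) * x0))) / ((A * P ^ 2 : ℕ) : ℤ))
            (((B : ℤ) - ((A : ℤ) * t0 - G.eval ((m : ℤ) * x0))) / ((A * P ^ 2 : ℕ) : ℤ) +
              ((4 * B / (A * P ^ 2) + 1 : ℕ) : ℤ)),
          F (((A : ℤ) * t0 - G.eval ((m : ℤ) * x0)) + (A * P ^ 2 : ℕ) * σ) *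
          F (((A' : ℤ) * t0 - G.eval ((m' : ℤ) * x0)) + (A' * P ^ 2 : ℕ) * (σ + (P1 x0 - P2 x0).eval ξ)) := by
    intro ξ hξ
    rw [Finset.mem_Ioc, Int.ediv_lt_iff_lt_mul hP3, Int.le_ediv_iff_mul_le hP3] at hξ
    rw [sum_classes _ _ hP2']
    refine Finset.sum_congr rfl fun t0 _ => ?_
    rw [← tau_sum h (P1 x0) (P2 x0) x0 t0 ξ (hP1 x0) (hP2 x0) (by linarith [hξ.1]) (by linarith [hξ.2]),
      Finset.mul_sum]
    refine Finset.sum_congr rfl fun τ _ => ?_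
    rw [Wt_congr hPP hψ]
  rw [Finset.sum_congr rfl e2, Finset.sum_comm]
  refine Finset.sum_congr rfl fun t0 _ => ?_
  rw [Finset.mul_sum]

/-- subtask SP -/
theorem t_SP (h : S_WEY) : ∀ G : Polynomial ℤ, 1 ≤ G.natDegree → S_SP G := by
  intro G hG P w y M m m' K ε hε hP hPP hM hm hm' hmm
  have hM0 : 0 < M := Nat.pos_of_dvd_of_pos hM (PP_pos w y)
  have hm0 : 0 < m := Nat.pos_of_dvd_of_pos hm hM0
  have hm'0 : 0 < m' := Nat.pos_of_dvd_of_pos hm' hM0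
  obtain ⟨A, hA⟩ := hm
  obtain ⟨A', hA'⟩ := hm'
  have hMA : M / m = A := by rw [hA]; exact Nat.mul_div_cancel_left A hm0
  have hMA' : M / m' = A' := by rw [hA']; exact Nat.mul_div_cancel_left A' hm'0
  have hA0 : 0 < A := Nat.pos_of_ne_zero (fun h0 => by rw [h0] at hA; simp at hA; omega)
  have hA'0 : 0 < A' := Nat.pos_of_ne_zero (fun h0 => by rw [h0] at hA'; simp at hA'; omega)
  have hAP : A ∣ P := (Dvd.intro_left m hA.symm).trans (hM.trans hPP)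
  have hA'P : A' ∣ P := (Dvd.intro_left m' hA'.symm).trans (hM.trans hPP)
  have hPZ : (0 : ℤ) < P := by exact_mod_cast hP
  -- the polynomials
  have hex1 : ∀ x0 : ℤ, ∃ P1 : Polynomial ℤ, (∀ ξ : ℤ, G.eval ((m : ℤ) * x0 + (m * P ^ 3 : ℕ) * ξ) =
      G.eval ((m : ℤ) * x0) + (A * P ^ 2 : ℕ) * P1.eval ξ) ∧ P1.natDegree ≤ G.natDegree ∧
      (A * P ^ 2 : ℕ) * P1.coeff G.natDegree = G.leadingCoeff * ((m * P ^ 3 : ℕ) : ℤ) ^ G.natDegree := by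
    intro x0
    refine exists_poly G hG _ _ _ ?_ ?_ ?_
    · have : 0 < m * P ^ 3 := by positivity
      exact_mod_cast this.ne'
    · have : 0 < A * P ^ 2 := by positivity
      exact_mod_cast this.ne'
    · have : A * P ^ 2 ∣ m * P ^ 3 := by
        obtain ⟨c, hc⟩ := hAP
        refine ⟨m * c, ?_⟩
        calc m * P ^ 3 = m * P ^ 2 * P := by ring
          _ = m * P ^ 2 * (A * c) := by rw [← hc]
          _ = _ := by ring
      exact_mod_cast this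
  have hex2 : ∀ x0 : ℤ, ∃ P1 : Polynomial ℤ, (∀ ξ : ℤ, G.eval ((m' : ℤ) * x0 + (m' * P ^ 3 : ℕ) * ξ) =
      G.eval ((m' : ℤ) * x0) + (A' * P ^ 2 : ℕ) * P1.eval ξ) ∧ P1.natDegree ≤ G.natDegree ∧
      (A' * P ^ 2 : ℕ) * P1.coeff G.natDegree = G.leadingCoeff * ((m' * P ^ 3 : ℕ) : ℤ) ^ G.natDegree := by
    intro x0
    refine exists_poly G hG _ _ _ ?_ ?_ ?_
    · have : 0 < m' * P ^ 3 := by positivity
      exact_mod_cast this.ne'
    · have : 0 < A' * P ^ 2 := by positivity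
      exact_mod_cast this.ne'
    · have : A' * P ^ 2 ∣ m' * P ^ 3 := by
        obtain ⟨c, hc⟩ := hA'P
        refine ⟨m' * c, ?_⟩
        calc m' * P ^ 3 = m' * P ^ 2 * P := by ring
          _ = m' * P ^ 2 * (A' * c) := by rw [← hc]
          _ = _ := by ring
      exact_mod_cast this
  choose P1 hP1e hP1d hP1c using hex1
  choose P2 hP2e hP2d hP2c using hex2
  have hG0 : G.leadingCoeff ≠ 0 := by
    rw [Ne, Polynomial.leadingCoeff_eq_zero]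
    rintro rfl
    simp at hG
  have hQd : ∀ x0, (P1 x0 - P2 x0).natDegree = G.natDegree := by
    intro x0
    apply Polynomial.natDegree_eq_of_le_of_coeff_ne_zero
    · exact (Polynomial.natDegree_sub_le _ _).trans (max_le (hP1d x0) (hP2d x0))
    · rw [Polynomial.coeff_sub]
      intro h0
      have h1 : (P1 x0).coeff G.natDegree = (P2 x0).coeff G.natDegree := by linarith
      have c1 := hP1c x0
      have c2 := hP2c x0
      rw [h1] at c1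
      set c := (P2 x0).coeff G.natDegree
      set e := G.natDegree with he
      have c3 : G.leadingCoeff * ((P : ℤ) ^ 3) ^ e * ((A' : ℤ) * (m : ℤ) ^ e) =
          G.leadingCoeff * ((P : ℤ) ^ 3) ^ e * ((A : ℤ) * (m' : ℤ) ^ e) := by
        push_cast at c1 c2
        rw [mul_pow] at c1 c2
        linear_combination (A : ℤ) * c2 - (A' : ℤ) * c1
      have c4 : (A' : ℤ) * (m : ℤ) ^ e = (A : ℤ) * (m' : ℤ) ^ e :=
        mul_left_cancel₀ (mul_ne_zero hG0 (by positivity)) c3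
      have c5 : A' * m ^ e = A * m' ^ e := by exact_mod_cast c4
      have c6 : M * m ^ (e + 1) = M * m' ^ (e + 1) := by
        calc M * m ^ (e + 1) = (A' * m ^ e) * (m * m') := by rw [hA']; ring
          _ = (A * m' ^ e) * (m * m') := by rw [c5]
          _ = M * m' ^ (e + 1) := by rw [hA]; ring
      have c7 : m ^ (e + 1) = m' ^ (e + 1) := Nat.eq_of_mul_eq_mul_left hM0 c6
      exact hmm (Nat.pow_left_injective (by omega : e + 1 ≠ 0) c7)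
  -- WEY
  set ε1 : ℝ := (ε / (10 * (P : ℝ) ^ 5 * A)) ^ 2 with hε1
  have hPR : (0 : ℝ) < P := by exact_mod_cast hP
  have hAR : (0 : ℝ) < A := by exact_mod_cast hA0
  have hε1p : 0 < ε1 := by positivity
  obtain ⟨R, hR, η, hη, L0, hW⟩ := WC_unif h ε1 hε1p (Ico (0 : ℤ) ((P : ℤ) ^ 3)) (fun x0 => P1 x0 - P2 x0)
    (fun x0 => by rw [hQd]; exact hG)
  refine ⟨A' * P ^ 2 * R.factorial, ?_, η / ((P : ℝ) ^ 3) ^ G.natDegree, by positivity,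
    (P ^ 3 * L0) ^ (G.natDegree + 2) + 1, ?_⟩
  · have := Nat.factorial_pos R
    have : 0 < A' * P ^ 2 * R.factorial := by positivity
    omega
  intro B hB q X Y H F ψ hq0 hq hqH hH hHX hHB hBX _ hψ hper hrg hF hZ
  rw [hMA, hMA'] at hrg
  rw [hMA, hMA']
  have hX1 : P ^ 3 * L0 < X := by
    by_contra hcon
    push Not at hcon
    have := Nat.pow_le_pow_left hcon (G.natDegree + 2)
    omega
  have hX0 : 1 ≤ X := by omega
  have hB0 : 1 ≤ B := by omega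
  have hdt : Dt G P A A' m m' B X Y F := by
    refine ⟨hP, hA0, hA'0, hF, ?_⟩
    intro x hx1 hx2
    obtain ⟨n, rfl⟩ := Int.eq_ofNat_of_zero_le hx1.le
    have h1 := hrg n (by omega) (by omega)
    exact ⟨h1.1, h1.2.2.1⟩
  rw [class_sum hdt hPP hper P1 P2 hP1e hP2e]
  -- the bound for one class
  set L : ℕ := X / P ^ 3 + 1 with hL
  set D2 : ℕ := A' * P ^ 2 with hD2
  have hD2p : 0 < D2 := by positivity
  have hP3p : 0 < P ^ 3 := by positivity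
  obtain ⟨H', hH'⟩ : D2 ∣ H := by
    have : D2 ∣ q := (Dvd.intro _ rfl).trans hq0
    exact this.trans hqH
  have hH'0 : 1 ≤ H' := by
    rcases Nat.eq_zero_or_pos H' with h0 | h0
    · rw [h0] at hH'
      omega
    · exact h0
  have hLX : X < P ^ 3 * L := by
    rw [hL]
    exact Nat.lt_mul_div_succ X hP3p
  have hL0 : L0 ≤ L := by
    by_contra hcon
    push Not at hcon
    have : P ^ 3 * L ≤ P ^ 3 * L0 := Nat.mul_le_mul_left _ hcon.le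
    omega
  have hclass : ∀ x0 ∈ Ico (0 : ℤ) ((P : ℤ) ^ 3), ∀ t0 : ℤ,
      |∑ ξ ∈ Ioc ((0 - x0) / (P : ℤ) ^ 3) (((X : ℤ) - x0) / (P : ℤ) ^ 3),
        ∑ σ ∈ Ioc (((B : ℤ) - ((A : ℤ) * t0 - G.eval ((m : ℤ) * x0))) / ((A * P ^ 2 : ℕ) : ℤ))
            (((B : ℤ) - ((A : ℤ) * t0 - G.eval ((m : ℤ) * x0))) / ((A * P ^ 2 : ℕ) : ℤ) +
              ((4 * B / (A * P ^ 2) + 1 : ℕ) : ℤ)),
          F (((A : ℤ) * t0 - G.eval ((m : ℤ) * x0)) + (A * P ^ 2 : ℕ) * σ) *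
          F (((A' : ℤ) * t0 - G.eval ((m' : ℤ) * x0)) + (D2 : ℕ) * (σ + (P1 x0 - P2 x0).eval ξ))| ≤
      (ε / (10 * (P : ℝ) ^ 5 * A)) * (10 * B * X) := by
    intro x0 hx0 t0
    have hb := class_bound (hW x0 hx0) L (4 * B / D2 + 1) (4 * B / (A * P ^ 2) + 1) H'
      (((B : ℤ) - ((A' : ℤ) * t0 - G.eval ((m' : ℤ) * x0))) / (D2 : ℤ))
      (-(((A' : ℤ) * t0 - G.eval ((m' : ℤ) * x0)) / (D2 : ℤ)))
      (((B : ℤ) - ((A : ℤ) * t0 - G.eval ((m : ℤ) * x0))) / ((A * P ^ 2 : ℕ) : ℤ))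
      ((0 - x0) / (P : ℤ) ^ 3) (((X : ℤ) - x0) / (P : ℤ) ^ 3)
      (fun σ => F (((A : ℤ) * t0 - G.eval ((m : ℤ) * x0)) + (A * P ^ 2 : ℕ) * σ))
      (fun σ => F (((A' : ℤ) * t0 - G.eval ((m' : ℤ) * x0)) + (D2 : ℕ) * σ))
      hL0 hH'0 ?_ ?_ ?_ ?_ (fun _ => hF.1 _) (fun _ => hF.1 _) ?_ ?_
    · refine abs_le_of_sq_le_sq (hb.trans ?_) (by positivity)
      rw [mul_pow]
      have hn1 : ((4 * B / (A * P ^ 2) + 1 : ℕ) : ℝ) ≤ 5 * B := by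
        have h1 : 4 * B / (A * P ^ 2) ≤ 4 * B := Nat.div_le_self _ _
        have h2 : 4 * B / (A * P ^ 2) + 1 ≤ 5 * B := by omega
        exact_mod_cast h2
      have hn2 : ((4 * B / D2 + 1 : ℕ) : ℝ) ≤ 5 * B := by
        have h1 : 4 * B / D2 ≤ 4 * B := Nat.div_le_self _ _
        have h2 : 4 * B / D2 + 1 ≤ 5 * B := by omega
        exact_mod_cast h2
      have hn3 : (L : ℝ) ≤ 2 * X := by
        have h1 : X / P ^ 3 ≤ X := Nat.div_le_self _ _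
        have h2 : L ≤ 2 * X := by omega
        exact_mod_cast h2
      rw [← hε1]
      calc ((4 * B / (A * P ^ 2) + 1 : ℕ) : ℝ) * (ε1 * (((4 * B / D2 + 1 : ℕ) : ℝ) * (L : ℝ) ^ 2))
          ≤ (5 * B) * (ε1 * ((5 * B) * (2 * X) ^ 2)) := by gcongr
        _ = ε1 * (10 * B * X) ^ 2 := by ring
    · rw [hQd]
      have h1 : (H' : ℝ) ≤ H := by
        have : H' ≤ H := by
          rw [hH']
          exact Nat.le_mul_of_pos_left _ hD2p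
        exact_mod_cast this
      have h2 : (X : ℝ) ≤ (P : ℝ) ^ 3 * L := by exact_mod_cast hLX.le
      calc (H' : ℝ) ≤ η / ((P : ℝ) ^ 3) ^ G.natDegree * (X : ℝ) ^ G.natDegree := h1.trans hHX
        _ ≤ η / ((P : ℝ) ^ 3) ^ G.natDegree * ((P : ℝ) ^ 3 * L) ^ G.natDegree := by gcongr
        _ = η * (L : ℝ) ^ G.natDegree := by
          rw [mul_pow]
          field_simp
    · have h1 : D2 * H' ≤ 4 * B := by rw [← hH']; omega
      have h2 : H' ≤ 4 * B / D2 := by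
        rw [Nat.le_div_iff_mul_le hD2p, mul_comm]
        exact h1
      omega
    · apply Int.ediv_le_ediv (by positivity)
      have : (0 : ℤ) ≤ X := by positivity
      linarith
    · have hP3 : (0 : ℤ) < (P : ℤ) ^ 3 := by positivity
      have h1 : ((X : ℤ) - x0) / (P : ℤ) ^ 3 * (P : ℤ) ^ 3 ≤ (X : ℤ) - x0 := Int.ediv_mul_le _ hP3.ne'
      have h2 : (0 - x0) < ((0 - x0) / (P : ℤ) ^ 3 + 1) * (P : ℤ) ^ 3 := Int.lt_ediv_add_one_mul_self _ hP3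
      set u := ((X : ℤ) - x0) / (P : ℤ) ^ 3
      set v := (0 - x0) / (P : ℤ) ^ 3
      have h3 : (u - v - 1) ≤ (X : ℤ) / (P : ℤ) ^ 3 := by
        rw [Int.le_ediv_iff_mul_le hP3]
        nlinarith
      rw [hL]
      push_cast
      linarith
    · intro σ hσ
      exact supp_prog hF _ _ hD2p σ hσ
    · exact cellZ hq hZ D2 H' hD2p hH' R hq0 _
  refine (Finset.abs_sum_le_sum_abs _ _).trans ?_
  have hb2 : ∀ x0 ∈ Ico (0 : ℤ) ((P : ℤ) ^ 3), |∑ t0 ∈ Ico (0 : ℤ) ((P : ℤ) ^ 2), Wt w y M ψ x0 t0 *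
      ∑ ξ ∈ Ioc ((0 - x0) / (P : ℤ) ^ 3) (((X : ℤ) - x0) / (P : ℤ) ^ 3),
        ∑ σ ∈ Ioc (((B : ℤ) - ((A : ℤ) * t0 - G.eval ((m : ℤ) * x0))) / ((A * P ^ 2 : ℕ) : ℤ))
            (((B : ℤ) - ((A : ℤ) * t0 - G.eval ((m : ℤ) * x0))) / ((A * P ^ 2 : ℕ) : ℤ) +
              ((4 * B / (A * P ^ 2) + 1 : ℕ) : ℤ)),
          F (((A : ℤ) * t0 - G.eval ((m : ℤ) * x0)) + (A * P ^ 2 : ℕ) * σ) *
          F (((A' : ℤ) * t0 - G.eval ((m' : ℤ) * x0)) + (D2 : ℕ) * (σ + (P1 x0 - P2 x0).eval ξ))| ≤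
      (P : ℝ) ^ 2 * ((ε / (10 * (P : ℝ) ^ 5 * A)) * (10 * B * X)) := by
    intro x0 hx0
    refine (Finset.abs_sum_le_sum_abs _ _).trans ?_
    calc _ ≤ ∑ t0 ∈ Ico (0 : ℤ) ((P : ℤ) ^ 2), ((ε / (10 * (P : ℝ) ^ 5 * A)) * (10 * B * X)) := by
          refine Finset.sum_le_sum fun t0 _ => ?_
          rw [abs_mul]
          calc _ ≤ 1 * ((ε / (10 * (P : ℝ) ^ 5 * A)) * (10 * B * X)) :=
                mul_le_mul (Wt_abs w y M hψ x0 t0) (hclass x0 hx0 t0) (abs_nonneg _) zero_le_one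
            _ = _ := one_mul _
      _ = _ := by
          rw [Finset.sum_const, Int.card_Ico, nsmul_eq_mul]
          congr 1
          rw [sub_zero]
          have : (((P : ℤ) ^ 2).toNat : ℕ) = P ^ 2 := by
            have : ((P : ℤ) ^ 2) = ((P ^ 2 : ℕ) : ℤ) := by push_cast; rfl
            rw [this, Int.toNat_natCast]
          rw [this]
          push_cast
          rfl
  refine (Finset.sum_le_sum hb2).trans ?_
  rw [Finset.sum_const, Int.card_Ico, nsmul_eq_mul, sub_zero]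
  have hc3 : (((P : ℤ) ^ 3).toNat : ℕ) = P ^ 3 := by
    have : ((P : ℤ) ^ 3) = ((P ^ 3 : ℕ) : ℤ) := by push_cast; rfl
    rw [this, Int.toNat_natCast]
  rw [hc3]
  push_cast
  have hBY : (B : ℝ) ≤ A * Y := by
    have h1 := hrg 1 le_rfl hX0
    have h2 : 4 * (B : ℤ) ≤ (A : ℤ) * Y := by linarith [h1.1, h1.2.2.1]
    have h3 : (4 : ℝ) * B ≤ A * Y := by exact_mod_cast h2
    have h4 : (0 : ℝ) ≤ B := by positivity
    linarith
  calc (P : ℝ) ^ 3 * ((P : ℝ) ^ 2 * ((ε / (10 * (P : ℝ) ^ 5 * A)) * (10 * B * X)))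
      ≤ (P : ℝ) ^ 3 * ((P : ℝ) ^ 2 * ((ε / (10 * (P : ℝ) ^ 5 * A)) * (10 * (A * Y) * X))) := by gcongr
    _ = ε * ((X : ℝ) * Y) := by
      field_simp

end

end Pool.Agent.N855.QG
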